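import Mathlib
import Pool.Agent.H36.TD.Main

set_option autoImplicit false

/-!
# c-symplectic homeomorphisms that are continuously differentiable off a closed set with compact components
-/

namespace Pool.Agent.Results.MP_bd900e_gt.CompactComponents

open MeasureTheory
open Pool.Agent.H72.Symp (Sp CapacityChoice LocallyPreserves stab)

/-- Let `n ≥ 2`, let `c` be any capacity choice, let `φ` be a `c`-symplectic homeomorphism of `R^{2n}` (the orientation plays no role) and let
`K` be a closed set such that all connected components of `K` are compact and `φ` is continuously differentiable off `K`. Then `φ` preserves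
the volume of every Borel set that contains all components of `K` which it meets; and if the union of the components of `K` with more than one
point has measure zero, then `φ` preserves the volume of every Borel set. -/
theorem result (c : CapacityChoice) (n : ℕ) [NeZero n] (hn : 2 ≤ n) (φ : Sp n ≃ₜ Sp n)
    (hφ : (Odd n → LocallyPreserves (c n) φ) ∧
      (Even n → LocallyPreserves (c (n + 1)) (stab φ)))
    (K : Set (Sp n)) (hK : IsClosed K) (hc : ∀ x ∈ K, IsCompact (connectedComponentIn K x))
    (hd : ContDiffOn ℝ 1 φ Kᶜ) :
    (∀ A, MeasurableSet A → (∀ x ∈ A, connectedComponentIn K x ⊆ A) →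
      volume (φ '' A) = volume A) ∧
    (volume {x | x ∈ K ∧ ∃ y ∈ connectedComponentIn K x, y ≠ x} = 0 →
      ∀ A, MeasurableSet A → volume (φ '' A) = volume A) :=
  Pool.Agent.H36.TD.main (O := fun _ => Set.univ) hn
    ⟨fun h => ⟨Set.mem_univ _, hφ.1 h⟩, fun h => ⟨Set.mem_univ _, hφ.2 h⟩⟩ hK hd hc

end Pool.Agent.Results.MP_bd900e_gt.CompactComponents
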