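import Mathlib
import Pool.Agent.H72.Symp.Dich

set_option autoImplicit false

/-!
# A dichotomy for volume preservation by c-symplectic homeomorphisms
-/

namespace Pool.Agent.Results.MP_bd900e_gt.Dichotomy

open MeasureTheory Pool.Agent.H72.Symp
open scoped ENNReal

/-- Let `c` be a capacity choice, `n ≥ 1`, and let `m` be the odd one of `n` and `n + 1`. Either every
`c`-symplectic homeomorphism of `R^{2n}` preserves volume, or there are `c`-symplectic
homeomorphisms `ψ` of `R^{2m}` that preserve the capacity `c m` of every open subset of the unit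
ball `B` and for which the volume of `ψ(B)` is arbitrarily small, and also such `ψ` for which it is
arbitrarily large. -/
theorem result (O : (m : ℕ) → Set (Sp m ≃ₜ Sp m)) (hO : ∀ m, IsHomeoClass (O m))
    (c : CapacityChoice) (n : ℕ) [NeZero n] (m : ℕ) [NeZero m]
    (hm : (Odd n ∧ m = n) ∨ (Even n ∧ m = n + 1)) :
    (∀ φ : Sp n ≃ₜ Sp n, IsCSymplectic O c φ →
      ∀ A, MeasurableSet A → volume (φ '' A) = volume A) ∨
    ((∀ ε : ℝ≥0∞, 0 < ε → ∃ ψ : Sp m ≃ₜ Sp m, IsCSymplectic O c ψ ∧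
        (∀ V, IsOpen V → V ⊆ ball1 m → (c m).val (ψ '' V) = (c m).val V) ∧
        volume (ψ '' ball1 m) < ε) ∧
      (∀ M : ℝ≥0∞, M < ⊤ → ∃ ψ : Sp m ≃ₜ Sp m, IsCSymplectic O c ψ ∧
        (∀ V, IsOpen V → V ⊆ ball1 m → (c m).val (ψ '' V) = (c m).val V) ∧
        M < volume (ψ '' ball1 m))) := by
  have hodd : Odd m := by
    rcases hm with ⟨h, rfl⟩ | ⟨h, rfl⟩
    · exact h
    · exact h.add_one
  have hmem : ∀ ψ : Sp m ≃ₜ Sp m, ψ ∈ grp (c m) (O m) → IsCSymplectic O c ψ := fun ψ hψ =>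
    ⟨fun _ => hψ, fun h => absurd hodd (Nat.not_odd_iff_even.2 h)⟩
  -- preservation of volume by the group in dimension `2m` gives the first alternative
  have hfirst : (∀ g ∈ grp (c m) (O m), ∀ A, MeasurableSet A → volume (g '' A) = volume A) →
      ∀ φ : Sp n ≃ₜ Sp n, IsCSymplectic O c φ →
        ∀ A, MeasurableSet A → volume (φ '' A) = volume A := by
    intro H φ hφ
    rcases hm with ⟨h, rfl⟩ | ⟨h, rfl⟩
    · exact H φ (hφ.1 h)
    · exact preserve_of_stab φ (H (stab φ) (hφ.2 h))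
  by_cases h1 : ∀ φ : Sp n ≃ₜ Sp n, IsCSymplectic O c φ →
      ∀ A, MeasurableSet A → volume (φ '' A) = volume A
  · exact Or.inl h1
  refine Or.inr ⟨fun ε hε => ?_, fun M hM => ?_⟩
  · by_contra hcon
    push Not at hcon
    refine h1 (hfirst (preserve_of_lower (c m) (O m) hε.ne' (hO m) fun ψ hψ => ?_))
    exact hcon ψ (hmem ψ hψ.1) hψ.2
  · by_contra hcon
    push Not at hcon
    refine h1 (hfirst (preserve_of_upper (c m) (O m) hM.ne (hO m) fun ψ hψ => ?_))
    exact hcon ψ (hmem ψ hψ.1) hψ.2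

end Pool.Agent.Results.MP_bd900e_gt.Dichotomy
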