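import Mathlib
import Pool.Agent.H36.CSymp.Stab

set_option autoImplicit false

/-!
# c-symplectic homeomorphisms that respect Lagrangian foliations preserve volume
-/

namespace Pool.Agent.Results.MP_bd900e_gt.LagrangianFoliations

open MeasureTheory
open Pool.Agent.H36.CSymp (LagrangianAt core descend lagrangian_stab)
open Pool.Agent.H72.Symp (Sp CapacityChoice LocallyPreserves stab)

/-- Let `n ≥ 2`, let `c` be any capacity choice and let `φ` be a `c`-symplectic homeomorphism of
`R^{2n}` (the orientation plays no role). If near every point of the Borel set `A` the map `φ` maps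
some smooth Lagrangian foliation to a smooth Lagrangian foliation, then `φ(A)` and `A` have the same
volume. -/
theorem result (c : CapacityChoice) (n : ℕ) [NeZero n] (hn : 2 ≤ n) (φ : Sp n ≃ₜ Sp n)
    (hφ : (Odd n → LocallyPreserves (c n) φ) ∧
      (Even n → LocallyPreserves (c (n + 1)) (stab φ)))
    (A : Set (Sp n)) (hA : MeasurableSet A) (hL : ∀ x ∈ A, LagrangianAt φ x) :
    volume (φ '' A) = volume A := by
  rcases Nat.even_or_odd n with h | h
  · refine descend φ hA fun B hB hBA => ?_
    exact core (by omega) (hφ.2 h) hB fun x hx => lagrangian_stab (hL _ (hBA x hx))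
  · exact core hn (hφ.1 h) hA hL

end Pool.Agent.Results.MP_bd900e_gt.LagrangianFoliations
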