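import Mathlib
import Pool.Agent.H65.FL.Str

set_option autoImplicit false

/-!
# c-symplectic homeomorphisms that respect Darboux flags are locally products and preserve volume
-/

namespace Pool.Agent.Results.MP_bd900e_gt.SymplecticFlags

open MeasureTheory
open Pool.Agent.H65.FL (Ag FlagAt ProdAt)
open Pool.Agent.H72.Symp (Sp IsSympEmbedding CapacityChoice LocallyPreserves stab)

/-- Let `n ≥ 1`, let `c` be any capacity choice and let `φ` be a `c`-symplectic homeomorphism of
`R^{2n}` (the orientation plays no role). (1) If in smooth symplectic charts `σ` of `U` and `τ` of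
`φ(U)` the map `φ` respects for every `k` the sets on which the first `k` coordinate pairs are
constant, then near every point of `U` it is in these charts a product of injective continuous area
preserving maps of the plane. (2) If near every point of the Borel set `A` there are such charts
(`FlagAt`), then `φ(A)` and `A` have the same volume. -/
theorem result (c : CapacityChoice) (n : ℕ) [NeZero n] (φ : Sp n ≃ₜ Sp n)
    (hφ : (Odd n → LocallyPreserves (c n) φ) ∧
      (Even n → LocallyPreserves (c (n + 1)) (stab φ))) :
    (∀ (U : Set (Sp n)) (σ τ : Sp n → Sp n), IsOpen U → IsSympEmbedding σ U Set.univ →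
      IsSympEmbedding τ (φ '' U) Set.univ →
      (∀ k, ∀ y ∈ U, ∀ z ∈ U, (Ag k (σ y) (σ z) ↔ Ag k (τ (φ y)) (τ (φ z)))) →
      ∀ x ∈ U, ProdAt φ σ τ U x) ∧
    ∀ A : Set (Sp n), MeasurableSet A → (∀ x ∈ A, FlagAt φ x) → volume (φ '' A) = volume A :=
  ⟨fun _ _ _ hU hσ hτ hL _ hx => Pool.Agent.H65.FL.str_main c n φ hφ hU hσ hτ hL hx,
    fun A hA hL => Pool.Agent.H65.FL.main c n φ hφ A hA hL⟩

end Pool.Agent.Results.MP_bd900e_gt.SymplecticFlags
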